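import Pool.Agent.helper97.IRO.Spec

set_option autoImplicit false

/-!
# Row iro:GE5: every element of `F` is good on a uniform dyadic partition
-/

open MeasureTheory Pool.Agent.LOF

namespace Pool.Agent.IRO

theorem GE5_den (B : Finset ℝ) (hB : ∀ b ∈ B, IsDyadic b) :
    ∃ m : ℕ, ∀ b ∈ B, ∃ A : ℤ, b = (A : ℝ) / 2 ^ m := by
  classical
  choose! A n hAn using hB
  refine ⟨∑ b ∈ B, n b, fun b hb => ?_⟩
  have hle : n b ≤ ∑ b ∈ B, n b := Finset.single_le_sum (fun _ _ => Nat.zero_le _) hb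
  obtain ⟨e, he⟩ := Nat.exists_eq_add_of_le hle
  refine ⟨A b * 2 ^ e, ?_⟩
  rw [he]
  have h1 := hAn b hb
  have h2 : (2 : ℝ) ^ (n b) ≠ 0 := by positivity
  have h3 : (2 : ℝ) ^ e ≠ 0 := by positivity
  rw [pow_add]
  push_cast
  rw [mul_div_mul_right _ _ h3]
  exact h1

theorem GE5_piece {g : ℝ ≃o ℝ} {B : Finset ℝ} (h : PLWith g B) {m : ℕ}
    (hm : ∀ b ∈ B, ∃ A : ℤ, b = (A : ℝ) / 2 ^ m) (k : ℕ) :
    ∃ (j : ℤ) (c : ℝ), ∀ z ∈ Set.Icc ((k : ℝ) / 2 ^ m) (((k : ℝ) + 1) / 2 ^ m),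
      g z = (2 : ℝ) ^ j * z + c := by
  have hpos : (0 : ℝ) < 2 ^ m := by positivity
  refine h _ _ ((div_lt_div_iff_of_pos_right hpos).2 (lt_add_one _)) fun b hb => ?_
  obtain ⟨A, rfl⟩ := hm b hb
  rw [div_le_div_iff_of_pos_right hpos, div_le_div_iff_of_pos_right hpos]
  rcases le_or_gt A (k : ℤ) with h1 | h1
  · left
    exact_mod_cast h1
  · right
    have h2 : (k : ℤ) + 1 ≤ A := h1
    exact_mod_cast h2

theorem GE5_nat : ∀ g ∈ F, ∃ m : ℕ, ∀ k : ℕ, k < 2 ^ m →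
    GoodOn g ((k : ℝ) / 2 ^ m) (((k : ℝ) + 1) / 2 ^ m) := by
  classical
  intro g hg
  have hg' := hg
  obtain ⟨h0, B, hB, hPL⟩ := hg'
  obtain ⟨m₀, hm₀⟩ := GE5_den B hB
  choose j c hjc using GE5_piece hPL hm₀
  have hpos₀ : (0 : ℝ) < 2 ^ m₀ := by positivity
  have hcd : ∀ k, IsDyadic (c k) := by
    intro k
    have h1 := hjc k ((k : ℝ) / 2 ^ m₀)
      ⟨le_rfl, (div_le_div_iff_of_pos_right hpos₀).2 (le_add_of_nonneg_right zero_le_one)⟩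
    have h2 : c k = g ((k : ℝ) / 2 ^ m₀) - (2 : ℝ) ^ (j k) * ((k : ℝ) / 2 ^ m₀) := by
      rw [h1]
      ring
    have hx : IsDyadic ((k : ℝ) / 2 ^ m₀) := ⟨k, m₀, by push_cast; rfl⟩
    rw [h2]
    exact (F.dyadic hg hx).sub (hx.pow_mul (j k))
  choose A n hAn using hcd
  set d : ℕ := ∑ k ∈ Finset.range (2 ^ m₀), ((j k).natAbs + n k) with hd
  have hdk : ∀ k < 2 ^ m₀, (j k).natAbs + n k ≤ d := fun k hk =>
    Finset.single_le_sum (f := fun k => (j k).natAbs + n k) (fun _ _ => Nat.zero_le _)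
      (Finset.mem_range.2 hk)
  refine ⟨m₀ + d, fun i hi => ?_⟩
  have hd2 : 0 < 2 ^ d := by positivity
  set k : ℕ := i / 2 ^ d with hk
  have hk1 : k < 2 ^ m₀ := by
    rw [hk, Nat.div_lt_iff_lt_mul hd2, ← pow_add]
    exact hi
  have hk2 : k * 2 ^ d ≤ i := Nat.div_mul_le_self i _
  have hk3 : i + 1 ≤ (k + 1) * 2 ^ d := by
    have := Nat.lt_div_mul_add hd2 (a := i)
    rw [← hk] at this
    rw [add_mul, one_mul]
    exact this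
  have hposd : (0 : ℝ) < 2 ^ d := by positivity
  have hposm : (0 : ℝ) < 2 ^ (m₀ + d) := by positivity
  have hlo : (k : ℝ) / 2 ^ m₀ ≤ (i : ℝ) / 2 ^ (m₀ + d) := by
    rw [pow_add, div_le_div_iff₀ hpos₀ (by positivity)]
    have h1 : (k : ℝ) * 2 ^ d ≤ i := by exact_mod_cast hk2
    calc (k : ℝ) * (2 ^ m₀ * 2 ^ d) = (k * 2 ^ d) * 2 ^ m₀ := by ring
      _ ≤ i * 2 ^ m₀ := mul_le_mul_of_nonneg_right h1 hpos₀.le
  have hhi : ((i : ℝ) + 1) / 2 ^ (m₀ + d) ≤ ((k : ℝ) + 1) / 2 ^ m₀ := by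
    rw [pow_add, div_le_div_iff₀ (by positivity) hpos₀]
    have h1 : (i : ℝ) + 1 ≤ (k + 1) * 2 ^ d := by exact_mod_cast hk3
    calc ((i : ℝ) + 1) * 2 ^ m₀ ≤ ((k + 1) * 2 ^ d) * 2 ^ m₀ :=
          mul_le_mul_of_nonneg_right h1 hpos₀.le
      _ = ((k : ℝ) + 1) * (2 ^ m₀ * 2 ^ d) := by ring
  have hmid : (i : ℝ) / 2 ^ (m₀ + d) ≤ ((i : ℝ) + 1) / 2 ^ (m₀ + d) :=
    (div_le_div_iff_of_pos_right hposm).2 (le_add_of_nonneg_right zero_le_one)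
  have hform : ∀ z ∈ Set.Icc ((i : ℝ) / 2 ^ (m₀ + d)) (((i : ℝ) + 1) / 2 ^ (m₀ + d)),
      g z = (2 : ℝ) ^ (j k) * z + c k := fun z hz =>
    hjc k z ⟨hlo.trans hz.1, hz.2.trans hhi⟩
  refine ⟨⟨j k, c k, hform⟩, ?_⟩
  -- the level of the image interval
  have hnk := hdk k hk1
  have hjabs : (j k) ≤ ((j k).natAbs : ℤ) := Int.le_natAbs
  obtain ⟨N, hN⟩ : ∃ N : ℕ, (N : ℤ) = (m₀ + d : ℕ) - j k :=
    ⟨((m₀ + d : ℕ) - j k).toNat, Int.toNat_of_nonneg (by push_cast; omega)⟩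
  have hNn : n k ≤ N := by
    push_cast at hN
    omega
  obtain ⟨e, he⟩ := Nat.exists_eq_add_of_le hNn
  have hzp : (2 : ℝ) ^ (j k) / 2 ^ (m₀ + d) = 1 / 2 ^ N := by
    have h1 : (2 : ℝ) ^ (j k) = 2 ^ (m₀ + d) / 2 ^ N := by
      have h2 : j k = ((m₀ + d : ℕ) : ℤ) - (N : ℤ) := by omega
      rw [h2, zpow_sub₀ (by norm_num), zpow_natCast, zpow_natCast]
    rw [h1]
    have h3 : (2 : ℝ) ^ (m₀ + d) ≠ 0 := hposm.ne'
    field_simp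
  have hc : c k = ((A k * 2 ^ e : ℤ) : ℝ) / 2 ^ N := by
    rw [hAn k, he, pow_add]
    push_cast
    have h3 : (2 : ℝ) ^ e ≠ 0 := by positivity
    rw [mul_div_mul_right _ _ h3]
  have hval : ∀ t : ℝ, (2 : ℝ) ^ (j k) * (t / 2 ^ (m₀ + d)) + c k
      = (t + ((A k * 2 ^ e : ℤ) : ℝ)) / 2 ^ N := by
    intro t
    rw [hc, add_div]
    congr 1
    calc (2 : ℝ) ^ (j k) * (t / 2 ^ (m₀ + d)) = t * ((2 : ℝ) ^ (j k) / 2 ^ (m₀ + d)) := by ring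
      _ = t / 2 ^ N := by rw [hzp, mul_one_div]
  have hgx : g ((i : ℝ) / 2 ^ (m₀ + d)) = (((i : ℤ) + A k * 2 ^ e : ℤ) : ℝ) / 2 ^ N := by
    rw [hform _ ⟨le_rfl, hmid⟩, hval]
    push_cast
    rfl
  have hgy : g (((i : ℝ) + 1) / 2 ^ (m₀ + d)) = ((((i : ℤ) + A k * 2 ^ e : ℤ) : ℝ) + 1) / 2 ^ N := by
    rw [hform _ ⟨hmid, le_rfl⟩, hval]
    push_cast
    ring
  have hnn : 0 ≤ (i : ℤ) + A k * 2 ^ e := by
    have h1 : 0 ≤ g ((i : ℝ) / 2 ^ (m₀ + d)) := by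
      have h2 : g 0 = 0 := h0 0 (by simp)
      rw [← h2]
      exact g.monotone (by positivity)
    rw [hgx] at h1
    have h2 : (0 : ℝ) < 2 ^ N := by positivity
    have h3 : (0 : ℝ) ≤ (((i : ℤ) + A k * 2 ^ e : ℤ) : ℝ) := by
      by_contra hcon
      push Not at hcon
      exact absurd h1 (not_le.2 (div_neg_of_neg_of_pos hcon h2))
    exact_mod_cast h3
  obtain ⟨K, hK⟩ := Int.eq_ofNat_of_zero_le hnn
  refine ⟨N, K, ?_, ?_⟩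
  · rw [hgx, hK]
    norm_num
  · rw [hgy, hK]
    norm_num

theorem GE5 : GE5_stmt := by
  intro g hg
  exact GE5_nat g hg

end Pool.Agent.IRO
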