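import Pool.Agent.helper97.IRO.Spec

set_option autoImplicit false

/-!
# Row iro:T4: the mirror image of T3
-/

open MeasureTheory Pool.Agent.LOF

namespace Pool.Agent.IRO

theorem T4_gR {a a'' b : ℝ} {g : F} (h : a < a'') (hg : g ∈ FI a'' b) : gR g.1 a 0 := by
  refine ⟨a'', h, fun z _ hz => ?_⟩
  rw [hg z (fun h1 => absurd h1.1 (not_lt.2 hz.le)), zpow_zero, one_mul]
  ring

theorem T4_gL {a b b' : ℝ} {g : F} (h : b' < b) (hg : g ∈ FI a b') : gL g.1 b 0 := by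
  refine ⟨b', h, fun z hz _ => ?_⟩
  rw [hg z (fun h1 => absurd h1.2 (not_lt.2 hz.le)), zpow_zero, one_mul]
  ring

theorem T4_zpow (hG2 : G2_stmt) {g : ℝ ≃o ℝ} {b : ℝ} (h : gL g b 1) (l : ℤ) : gL (g ^ l) b l := by
  induction l with
  | zero =>
    rw [zpow_zero]
    refine ⟨b - 1, by linarith, fun z _ _ => ?_⟩
    show z = _
    rw [zpow_zero]
    ring
  | succ n ih =>
    rw [zpow_add_one]
    exact (hG2 _ _ b _ _).1 ih h
  | pred n ih =>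
    rw [zpow_sub_one]
    have h1 := (hG2 g g b 1 1).2.1 h
    have h2 := (hG2 _ _ b _ _).1 ih h1
    rwa [← sub_eq_add_neg] at h2

theorem T4 (hCT5 : CT5_stmt) (hCT6 : CT6_stmt) (hG1 : G1_stmt) (hG2 : G2_stmt) (hG4 : G4_stmt)
    (hT2 : T2_stmt) : T4_stmt := by
  intro P hP hC a' a b hab ha'b haa' hB
  obtain ⟨w, ⟨a'', ha'', hw⟩, hwC⟩ := hB
  have hwH : w ∈ FI a' b := hwC.1
  have hwb : w.1 b = b := hwH b (fun h => lt_irrefl b h.2)
  obtain ⟨l, hl, -⟩ := (hG1 w b hwb).1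
  obtain ⟨c, -, hac, -, u, hu, hu1⟩ := (hG4 a b hab.2.2.1 hab.2.2.2.1 hab.2.2.2.2).1 hab.2.1
  have huH : u ∈ FI a b := FI_mono hac.le le_rfl hu
  have huH' : u ∈ FI a' b := FI_mono haa'.le le_rfl huH
  -- `u` is cofinal in `FI a' b`
  have huC : Cof P (FI a' b) u := by
    refine Cof.of_zpow (n := l) ?_ huH'
    by_contra hno
    have hno' : ¬ Cof P (FI a' b) (u ^ l)⁻¹ := fun h => hno (by simpa using h.inv)
    have h1 : ¬ Cof P (FI a' b) (w⁻¹ * u ^ l) := by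
      refine hT2 P hP hC a' b _ ha'b (mul_mem (inv_mem hwH) (zpow_mem huH' l)) ?_ ?_
      · refine T4_gR (a'' := min a'' c) (b := b) (lt_min ha'' (haa'.trans hac)) ?_
        exact mul_mem (inv_mem (FI_mono (min_le_left _ _) le_rfl hw))
          (zpow_mem (FI_mono (min_le_right _ _) le_rfl hu) l)
      · have h2 := (hG2 _ _ b _ _).1 ((hG2 w.1 w.1 b l l).2.1 hl) (T4_zpow hG2 hu1 l)
        rw [neg_add_cancel] at h2
        rw [Subgroup.coe_mul, Subgroup.coe_inv, Subgroup.coe_zpow]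
        exact h2
    have h3 := hCT5 F P hP hC (FI a' b) (w⁻¹ * u ^ l) (u ^ l)⁻¹
      (mul_mem (inv_mem hwH) (zpow_mem huH' l)) (inv_mem (zpow_mem huH' l)) h1 hno'
    rw [mul_inv_cancel_right] at h3
    exact h3 hwC.inv
  refine ⟨⟨u, ⟨c, hac, hu⟩, huC.mono (FI_mono haa'.le le_rfl) huH⟩, ?_⟩
  rintro ⟨v, ⟨b', hb', hv⟩, hvC⟩
  have hvH' : v ∈ FI a' b := FI_mono haa'.le le_rfl hvC.1
  have hvn : ¬ Cof P (FI a' b) v :=
    hT2 P hP hC a' b v ha'b hvH' (T4_gR haa' hvC.1) (T4_gL hb' hv)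
  -- a positive cofinal element in `FI a b`
  obtain ⟨t, htP, htC, htH⟩ : ∃ t, P t ∧ Cof P (FI a' b) t ∧ t ∈ FI a b := by
    rcases hP.tri u (huC.ne_one hP) with h | h
    · exact ⟨u, h, huC, huH⟩
    · exact ⟨u⁻¹, h, huC.inv, inv_mem huH⟩
  obtain ⟨n, hn⟩ := hvC.2 t htH
  have h4 : ¬ Cof P (FI a' b) (v ^ n) := fun h => hvn (h.of_zpow hvH')
  have h5 := hCT6 F P hP hC (FI a' b) (v ^ n) t (zpow_mem hvH' n) h4 htC htP
  refine hP.anti _ hn ?_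
  rwa [mul_inv_rev, inv_inv]

end Pool.Agent.IRO
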